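import Mathlib

set_option autoImplicit false

namespace Pool.Agent.Results.MP_441cc7_al.Pos

open Polynomial Finset

noncomputable def P (t : ℕ → ℝ) (m i : ℕ) : ℝ[X] := ∏ j ∈ range m, (X - C (t (i + j + 1)))

lemma P_diff (t : ℕ → ℝ) (m i : ℕ) :
    P t (m + 1) (i + 1) - P t (m + 1) i = (t (i + 1) - t (i + m + 2)) • P t m (i + 1) := by
  unfold P
  rw [prod_range_succ, prod_range_succ', smul_eq_C_mul]
  have : ∀ j, i + (j + 1) + 1 = i + 1 + j + 1 := fun j => by ring
  simp only [this, show i + 1 + m + 1 = i + m + 2 by ring, add_zero, map_sub]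
  ring

lemma step {t : ℕ → ℝ} (ht : ∀ m n, 1 ≤ m → m < n → t m < t n) (L : ℝ[X] →ₗ[ℝ] ℝ) (m a b : ℕ) (hab : a < b)
    (ha : 0 ≤ L (P t (m + 1) a)) (hb : L (P t (m + 1) b) ≤ 0) :
    ∃ c, a < c ∧ c ≤ b ∧ 0 ≤ L (P t m c) := by
  by_contra! h
  have : ∀ n, a + n + 1 ≤ b → 0 < L (P t (m + 1) (a + n + 1)) := by
    have k : ∀ i, a ≤ i → i + 1 ≤ b → L (P t (m + 1) i) < L (P t (m + 1) (i + 1)) := by
      intro i h1 h2
      have := congrArg L (P_diff t m i)
      rw [map_sub, map_smul, smul_eq_mul] at this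
      have h3 := h (i + 1) (by omega) h2
      have h4 := ht (i + 1) (i + m + 2) (by omega) (by omega)
      nlinarith
    intro n
    induction n with
    | zero => intro h1; exact ha.trans_lt (k a le_rfl h1)
    | succ n ih => intro h1; exact (ih (by omega)).trans (k (a + n + 1) (by omega) (by omega))
  have h2 := this (b - a - 1) (by omega)
  rw [show a + (b - a - 1) + 1 = b by omega] at h2
  linarith

lemma alt {t : ℕ → ℝ} (ht : ∀ m n, 1 ≤ m → m < n → t m < t n) (L : ℝ[X] →ₗ[ℝ] ℝ) (s d : ℕ) : ∀ j : ℕ → ℕ,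
    (∀ r < d, j r < j (r + 1)) → (∀ r ≤ d, 0 ≤ (-1) ^ r * L (P t (s + d) (j r))) →
    ∃ c, 0 ≤ L (P t s c) := by
  induction d with
  | zero => intro j _ h; exact ⟨j 0, by simpa using h 0 le_rfl⟩
  | succ d ih =>
    intro j h1 h2
    have : ∀ r, ∃ c, r ≤ d → j r < c ∧ c ≤ j (r + 1) ∧ 0 ≤ (-1) ^ r * L (P t (s + d) c) := by
      intro r
      by_cases hr : r ≤ d
      · obtain ⟨c, hc⟩ := step ht (((-1 : ℝ) ^ r) • L) (s + d) (j r) (j (r + 1)) (h1 r (by omega))
          (h2 r (by omega)) (by
            have := h2 (r + 1) (by omega)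
            rw [pow_succ] at this
            simp only [LinearMap.smul_apply, smul_eq_mul]
            rw [← add_assoc] at this
            linarith)
        exact ⟨c, fun _ => hc⟩
      · exact ⟨0, fun h => absurd h hr⟩
    choose c hc using this
    exact ih c (fun r hr => (hc r hr.le).2.1.trans_lt (hc (r + 1) hr).1) fun r hr => (hc r hr).2.2

theorem result : ∀ (k : ℕ), 2 ≤ k → ∀ (t : ℕ → ℝ), (∀ m n, 1 ≤ m → m < n → t m < t n) →
    ∀ i : Fin k → ℕ, StrictMono i →
    LinearIndependent ℝ fun l : Fin k =>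
      (∏ j ∈ Finset.Icc 1 (k - 1), (X - C (t (i l + j))) : ℝ[X]) := by
  intro k hk t ht i hi
  have e : (fun l : Fin k => (∏ j ∈ Finset.Icc 1 (k - 1), (X - C (t (i l + j))) : ℝ[X])) =
      fun l => P t (k - 1) (i l) := by
    ext1 l
    rw [P, ← Finset.Ico_add_one_right_eq_Icc, Finset.prod_Ico_eq_prod_range]
    simp only [Nat.add_sub_cancel]
    exact prod_congr rfl fun j _ => by rw [show i l + (1 + j) = i l + j + 1 by ring]
  rw [e]
  set S := Submodule.span ℝ (Set.range fun l => P t (k - 1) (i l))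
  have key : ∀ s < k, (X ^ s : ℝ[X]) ∈ S := by
    intro s
    induction s using Nat.strong_induction_on with
    | _ s ih =>
    intro hs
    by_contra hc
    obtain ⟨L, h1, h2⟩ := Submodule.exists_dual_map_eq_bot_of_notMem hc inferInstance
    have h0 : ∀ p ∈ S, L p = 0 := fun p hp => by
      have : L p ∈ S.map L := Submodule.mem_map_of_mem hp
      rwa [h2, Submodule.mem_bot] at this
    have hP : ∀ c, L (P t s c) = L (X ^ s) := fun c => by
      have hm : (P t s c).Monic := monic_prod_of_monic _ _ fun j _ => monic_X_sub_C _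
      have hd : (P t s c).natDegree = s := by
        rw [P, natDegree_prod_of_monic _ _ fun j _ => monic_X_sub_C _]; simp
      rw [hm.as_sum, hd, map_add, map_sum, sum_eq_zero, add_zero]
      intro r hr
      rw [mem_range] at hr
      rw [← smul_eq_C_mul, map_smul, h0 _ (ih r hr (by omega)), smul_zero]
    have hz : ∀ L' : ℝ[X] →ₗ[ℝ] ℝ, (∀ p ∈ S, L' p = 0) → ∃ c, 0 ≤ L' (P t s c) := fun L' h =>
      alt ht L' s (k - 1 - s) (fun r => if h : r < k then i ⟨r, h⟩ else 0)
        (fun r hr => by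
          rw [dif_pos (by omega), dif_pos (by omega)]
          exact hi (by simp [Fin.lt_def]))
        (fun r hr => by
          rw [dif_pos (by omega), show s + (k - 1 - s) = k - 1 by omega,
            h _ (Submodule.subset_span ⟨_, rfl⟩), mul_zero])
    obtain ⟨c, h3⟩ := hz L h0
    obtain ⟨c', h4⟩ := hz (-L) fun p hp => by simp [h0 p hp]
    rw [LinearMap.neg_apply, hP] at h4
    rw [hP] at h3
    exact h1 (by linarith)
  rw [linearIndependent_iff_card_le_finrank_span]
  have : Module.Finite ℝ S := Module.Finite.span_of_finite _ (Set.finite_range _)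
  have hl : LinearIndependent ℝ fun l : Fin k => (⟨X ^ l.val, key l l.2⟩ : S) := by
    refine LinearIndependent.of_comp S.subtype ?_
    have := (Polynomial.basisMonomials ℝ).linearIndependent.comp (fun l : Fin k => l.val)
      Fin.val_injective
    convert this using 1
    ext1 l
    simp [← monomial_one_right_eq_X_pow]
  exact hl.fintype_card_le_finrank

end Pool.Agent.Results.MP_441cc7_al.Pos
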